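import Pool.Agent.Run7.h891.ClsAnti

/-! Q1 of MP_699d75_co (are the countable planar rayless graphs well-quasi-ordered under minors?).
Either there is a perfect antichain of connected countable planar rayless graphs, or the connected
ones are well-quasi-ordered and the two-connected ones are better-quasi-ordered. The same for every
set of two-connected excluded minors.

Planar: without a minor `K₅` or `K₃,₃` (Wagner; for countable graphs: every finite subgraph is
planar). The definitions are in `Pool/Agent/Run7/h891/Defs.lean` and `Defs4.lean`. -/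

set_option autoImplicit false

namespace Pool.Agent.Results.MP_699d75_co.PlanarRaylessDichotomy

open Run7.h891

/-- The countable rayless graphs without a minor isomorphic to a member of `F`. -/
def Excluding (F : Set Gph) : Set Gph :=
  {G | Countable G.1 ∧ Rayless G.2 ∧ ∀ H ∈ F, ¬ IsMinor H.2 G.2}

/-- The countable planar rayless graphs: neither `K₅` nor `K₃,₃` is a minor. -/
def PlanarRayless : Set Gph :=
  {G | Countable G.1 ∧ Rayless G.2 ∧ ¬ IsMinor (⊤ : SimpleGraph (Fin 5)) G.2 ∧
    ¬ IsMinor (completeBipartiteGraph (Fin 3) (Fin 3)) G.2}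

/-- There is a perfect antichain of connected members of `K`: a continuous map from the Cantor
space to the graphs with vertex set `ℕ`, whose values are connected members of `K` and, at distinct
points, not minors of each other. -/
def PerfectAntichain (K : Set Gph) : Prop :=
  ∃ Φ : (ℕ → Bool) → SimpleGraph ℕ, @Continuous _ _ _ graphTopology Φ ∧
    (∀ t, (⟨ℕ, Φ t⟩ : Gph) ∈ K) ∧ (∀ t, (Φ t).Connected) ∧
    ∀ t t', t ≠ t' → ¬ IsMinor (Φ t) (Φ t')

theorem not_perfect {K : Set Gph} (h : WqoOn {G | G ∈ K ∧ G.2.Connected}) :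
    ¬ PerfectAntichain K := by
  rintro ⟨Φ, _, h2, h3, h4⟩
  obtain ⟨i, j, hij, hm⟩ := h (fun n => ⟨ℕ, Φ fun k => decide (k = n)⟩)
    (fun n => ⟨h2 _, h3 _⟩)
  refine h4 _ _ (fun h5 => ?_) hm
  have h6 := congrFun h5 i
  simp at h6
  omega

theorem result :
    ((WqoOn {G | G ∈ PlanarRayless ∧ G.2.Connected} ↔ ¬ PerfectAntichain PlanarRayless) ∧
      (WqoOn {G | G ∈ PlanarRayless ∧ G.2.Connected} →
        BqoOn {G | G ∈ PlanarRayless ∧ TwoConnected G.2})) ∧
    ∀ F : Set Gph, (∀ H ∈ F, TwoConnected H.2) →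
      (WqoOn {G | G ∈ Excluding F ∧ G.2.Connected} ↔ ¬ PerfectAntichain (Excluding F)) ∧
      (WqoOn {G | G ∈ Excluding F ∧ G.2.Connected} →
        BqoOn {G | G ∈ Excluding F ∧ TwoConnected G.2}) := by
  have h2 : ∀ F : Set Gph, (∀ H ∈ F, TwoConnected H.2) →
      (WqoOn {G | G ∈ Excluding F ∧ G.2.Connected} ↔ ¬ PerfectAntichain (Excluding F)) ∧
      (WqoOn {G | G ∈ Excluding F ∧ G.2.Connected} →
        BqoOn {G | G ∈ Excluding F ∧ TwoConnected G.2}) := by
    intro F hF
    refine ⟨⟨not_perfect, fun h => ?_⟩, Cls.forb_bqo hF⟩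
    by_contra hW
    exact h (Cls.wqo_or_perfect (K := Excluding F) (Cls.forb_minor F) (Cls.forb_hub hF)
      (fun G hG => ⟨hG.1, hG.2.1⟩) hW)
  refine ⟨?_, h2⟩
  have h3 := h2 {⟨Fin 5, ⊤⟩, ⟨Fin 3 ⊕ Fin 3, completeBipartiteGraph (Fin 3) (Fin 3)⟩} (by
    rintro H (rfl | rfl)
    · exact Cls.twoConnected_K5
    · exact Cls.twoConnected_K33)
  have h4 : Excluding {⟨Fin 5, ⊤⟩, ⟨Fin 3 ⊕ Fin 3, completeBipartiteGraph (Fin 3) (Fin 3)⟩} =
      PlanarRayless := by
    ext G
    simp [Excluding, PlanarRayless]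
  rwa [h4] at h3

end Pool.Agent.Results.MP_699d75_co.PlanarRaylessDichotomy
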